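import Pool.Agent.Q240.CD.Stm2

set_option autoImplicit false

open Polynomial Filter Topology Finset MeasureTheory
open Pool.Agent.Q240.CD

namespace Pool.Agent.Q65.CD

lemma xk_pos {a : ℝ} (ha : 0 < a) {k : ℕ} (hk : 0 < k) : 0 < xk a k := by
  unfold xk
  have : (0 : ℝ) < k := by exact_mod_cast hk
  positivity

/-- the factors of `S` in terms of `1 / (k+1)²` -/
lemma term_eq {a : ℝ} (ha : 0 < a) (k : ℕ) (z : ℂ) :
    z ^ 2 / ((xk a (k + 1) : ℝ) : ℂ) ^ 2 = (a * z / Real.pi) ^ 2 / ((k : ℂ) + 1) ^ 2 := by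
  have h1 : (a : ℂ) ≠ 0 := by exact_mod_cast ha.ne'
  have h2 : (Real.pi : ℂ) ≠ 0 := by exact_mod_cast Real.pi_ne_zero
  have h3 : (k : ℂ) + 1 ≠ 0 := by exact_mod_cast Nat.succ_ne_zero k
  unfold xk
  push_cast
  field_simp

lemma summable_sq (w : ℂ) : Summable fun k : ℕ => ‖w / ((k : ℂ) + 1) ^ 2‖ := by
  have h := (summable_nat_add_iff 1).2 (Real.summable_one_div_nat_pow.2 (by norm_num : 1 < 2))
  refine (h.mul_left ‖w‖).congr fun k => ?_
  rw [norm_div, norm_pow]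
  have : ‖(k : ℂ) + 1‖ = (k : ℝ) + 1 := by
    have : (k : ℂ) + 1 = ((k + 1 : ℕ) : ℂ) := by push_cast; rfl
    rw [this, Complex.norm_natCast]; push_cast; rfl
  rw [this]
  push_cast
  ring

/-- all factors together -/
lemma mult_all {a : ℝ} (ha : 0 < a) (z : ℂ) (n : ℕ) :
    Multipliable fun k : ℕ => (1 - z ^ 2 / ((xk a (n + 1 + k) : ℝ) : ℂ) ^ 2) := by
  have h1 : Summable fun k : ℕ => ‖-(z ^ 2 / ((xk a (n + 1 + k) : ℝ) : ℂ) ^ 2)‖ := by
    have h2 := (summable_nat_add_iff n).2 (summable_sq ((a * z / Real.pi) ^ 2))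
    refine h2.congr fun k => ?_
    rw [norm_neg]
    have : n + 1 + k = (k + n) + 1 := by ring
    rw [this, term_eq ha]
  have h3 := multipliable_one_add_of_summable h1
  refine h3.congr fun k => ?_
  ring

theorem spp : S_SpP := by
  intro a n z ha
  have h1 : (a : ℂ) ≠ 0 := by exact_mod_cast ha.ne'
  have h2 : (Real.pi : ℂ) ≠ 0 := by exact_mod_cast Real.pi_ne_zero
  have hl := Complex.tendsto_euler_sin_prod (a * z / Real.pi)
  have e1 : (Real.pi : ℂ) * (a * z / Real.pi) = a * z := by field_simp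
  rw [e1] at hl
  have hr := ((mult_all ha z n).hasProd.tendsto_prod_nat).const_mul
    (a * z * (∏ k ∈ range n, (1 - z ^ 2 / ((xk a (k + 1) : ℝ) : ℂ) ^ 2)))
  have hl2 := hl.comp (tendsto_add_atTop_nat n)
  refine tendsto_nhds_unique (hl2.congr fun m => ?_) hr
  simp only [Function.comp]
  have e2 : ∏ k ∈ range n, (1 - z ^ 2 / ((xk a (k + 1) : ℝ) : ℂ) ^ 2) =
      ∏ k ∈ range n, (1 - (a * z / Real.pi) ^ 2 / ((k : ℂ) + 1) ^ 2) := by
    refine prod_congr rfl fun k _ => ?_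
    rw [term_eq ha]
  have e3 : ∏ k ∈ range m, (1 - z ^ 2 / ((xk a (n + 1 + k) : ℝ) : ℂ) ^ 2) =
      ∏ k ∈ range m, (1 - (a * z / Real.pi) ^ 2 / (((n + k : ℕ) : ℂ) + 1) ^ 2) := by
    refine prod_congr rfl fun k _ => ?_
    have : n + 1 + k = (n + k) + 1 := by ring
    rw [this, term_eq ha]
  rw [e2, e3, add_comm m n, prod_range_add]
  ring

end Pool.Agent.Q65.CD
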