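import Pool.Agent.Q65.CD.SpP

set_option autoImplicit false

open Polynomial Filter Topology Finset MeasureTheory
open Pool.Agent.Q240.CD

namespace Pool.Agent.Q65.CD

lemma norm_sin_le (w : ℂ) : ‖Complex.sin w‖ ≤ Real.exp |w.im| := by
  unfold Complex.sin
  rw [norm_div, norm_mul, Complex.norm_I, mul_one, Complex.norm_ofNat]
  have h1 : ‖Complex.exp (-w * Complex.I)‖ = Real.exp w.im := by
    rw [Complex.norm_exp]; congr 1; simp
  have h2 : ‖Complex.exp (w * Complex.I)‖ = Real.exp (-w.im) := by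
    rw [Complex.norm_exp]; congr 1; simp
  have h3 := norm_sub_le (Complex.exp (-w * Complex.I)) (Complex.exp (w * Complex.I))
  rw [h1, h2] at h3
  have h4 : Real.exp w.im ≤ Real.exp |w.im| := Real.exp_le_exp.2 (le_abs_self _)
  have h5 : Real.exp (-w.im) ≤ Real.exp |w.im| := Real.exp_le_exp.2 (neg_le_abs _)
  linarith

lemma factor_ge (X : ℝ) (hX : 0 < X) (z : ℂ) :
    z.re ^ 2 / X ^ 2 - 1 ≤ ‖1 - z ^ 2 / (X : ℂ) ^ 2‖ := by
  have hX' : (X : ℂ) ≠ 0 := by exact_mod_cast hX.ne'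
  have e : 1 - z ^ 2 / (X : ℂ) ^ 2 = (1 - z / X) * (1 + z / X) := by
    field_simp
    ring
  rw [e, norm_mul]
  have h1 : |1 - z.re / X| ≤ ‖1 - z / X‖ := by
    have := Complex.abs_re_le_norm (1 - z / X)
    simpa [Complex.div_ofReal_re] using this
  have h2 : |1 + z.re / X| ≤ ‖1 + z / X‖ := by
    have := Complex.abs_re_le_norm (1 + z / X)
    simpa [Complex.div_ofReal_re] using this
  have h3 : |1 - z.re / X| * |1 + z.re / X| ≤ ‖1 - z / X‖ * ‖1 + z / X‖ :=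
    mul_le_mul h1 h2 (abs_nonneg _) (norm_nonneg _)
  rw [← abs_mul] at h3
  have h4 : z.re ^ 2 / X ^ 2 - 1 = -((1 - z.re / X) * (1 + z.re / X)) := by
    field_simp
    ring
  rw [h4]
  exact (neg_le_abs _).trans h3

lemma prod_ge (n : ℕ) (θ : ℝ) (hθ : 1 ≤ θ) :
    θ ^ (2 * n) * 2 ^ n ≤
      ∏ k ∈ range n, (θ ^ 2 * (((n : ℝ) - k) * (n + 2 + k)) / ((k : ℝ) + 1) ^ 2) := by
  have h1 : ∏ k ∈ range n, ((n : ℝ) - k) = ∏ k ∈ range n, ((k : ℝ) + 1) := by
    rw [← prod_range_reflect]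
    refine prod_congr rfl fun k hk => ?_
    rw [mem_range] at hk
    have : ((n - 1 - k : ℕ) : ℝ) = (n : ℝ) - 1 - k := by
      rw [Nat.sub_sub, Nat.cast_sub (by omega)]; push_cast; ring
    rw [this]; ring
  have h2 : ∏ k ∈ range n, (θ ^ 2 * (((n : ℝ) - k) * (n + 2 + k)) / ((k : ℝ) + 1) ^ 2) =
      θ ^ (2 * n) * ∏ k ∈ range n, (((n : ℝ) + 2 + k) / ((k : ℝ) + 1)) := by
    have h3 : ∏ k ∈ range n, (θ ^ 2 * (((n : ℝ) - k) * (n + 2 + k)) / ((k : ℝ) + 1) ^ 2) =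
        (∏ k ∈ range n, θ ^ 2) * ((∏ k ∈ range n, ((n : ℝ) - k)) / (∏ k ∈ range n, ((k : ℝ) + 1))) *
          ∏ k ∈ range n, (((n : ℝ) + 2 + k) / ((k : ℝ) + 1)) := by
      rw [← prod_div_distrib, ← prod_mul_distrib, ← prod_mul_distrib]
      refine prod_congr rfl fun k _ => ?_
      have : (k : ℝ) + 1 ≠ 0 := by positivity
      field_simp
    rw [h3, h1, prod_const, card_range, ← pow_mul, div_self, mul_one]
    exact prod_ne_zero_iff.2 fun k _ => by positivity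
  rw [h2]
  refine mul_le_mul_of_nonneg_left ?_ (by positivity)
  have h4 : (2 : ℝ) ^ n = ∏ k ∈ range n, (2 : ℝ) := by simp
  rw [h4]
  refine prod_le_prod (fun _ _ => by norm_num) fun k hk => ?_
  rw [mem_range] at hk
  have hk' : (k : ℝ) ≤ n := by exact_mod_cast hk.le
  rw [le_div_iff₀ (by positivity)]
  linarith

theorem far : S_Far := by
  intro a n z ha hz
  have hX : 0 < xk a (n + 1) := xk_pos ha (Nat.succ_pos n)
  set X := xk a (n + 1) with hXdef
  set θ := |z.re| / X with hθdef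
  have hθ : 1 ≤ θ := by rw [hθdef, le_div_iff₀ hX]; simpa using hz
  have hx0 : 0 < |z.re| := hX.trans_le hz
  -- the finite product
  have hP : θ ^ (2 * n) * 2 ^ n ≤ ‖∏ k ∈ range n, (1 - z ^ 2 / ((xk a (k + 1) : ℝ) : ℂ) ^ 2)‖ := by
    rw [norm_prod]
    refine (prod_ge n θ hθ).trans (prod_le_prod ?_ ?_)
    · intro k hk
      rw [mem_range] at hk
      have hk' : (k : ℝ) ≤ n := by exact_mod_cast hk.le
      have : 0 ≤ (n : ℝ) - k := by linarith
      positivity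
    · intro k hk
      rw [mem_range] at hk
      have hk' : (k : ℝ) ≤ n := by exact_mod_cast hk.le
      have hk0 : 0 < xk a (k + 1) := xk_pos ha (Nat.succ_pos k)
      refine le_trans ?_ (factor_ge _ hk0 z)
      have e1 : z.re ^ 2 = θ ^ 2 * X ^ 2 := by
        rw [hθdef, div_pow, sq_abs]; field_simp
      have e2 : X ^ 2 / xk a (k + 1) ^ 2 = ((n : ℝ) + 1) ^ 2 / ((k : ℝ) + 1) ^ 2 := by
        rw [hXdef]
        unfold xk
        have := Real.pi_pos
        push_cast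
        field_simp
      have e3 : z.re ^ 2 / xk a (k + 1) ^ 2 = θ ^ 2 * (((n : ℝ) + 1) ^ 2 / ((k : ℝ) + 1) ^ 2) := by
        rw [e1, mul_div_assoc, e2]
      rw [e3]
      have hk1 : (0 : ℝ) < (k : ℝ) + 1 := by positivity
      have e4 : θ ^ 2 * (((n : ℝ) - k) * (n + 2 + k)) / ((k : ℝ) + 1) ^ 2 =
          θ ^ 2 * (((n : ℝ) + 1) ^ 2 / ((k : ℝ) + 1) ^ 2) - θ ^ 2 := by
        field_simp
        ring
      rw [e4]
      have : 1 ≤ θ ^ 2 := one_le_pow₀ hθ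
      linarith
  have hs := spp a n z ha
  have hn : ‖Complex.sin (a * z)‖ =
      a * ‖z‖ * ‖∏ k ∈ range n, (1 - z ^ 2 / ((xk a (k + 1) : ℝ) : ℂ) ^ 2)‖ * ‖Sp a n z‖ := by
    rw [hs, norm_mul, norm_mul, norm_mul, Complex.norm_real, Real.norm_of_nonneg ha.le]
  have hsin : ‖Complex.sin (a * z)‖ ≤ Real.exp (a * |z.im|) := by
    refine (norm_sin_le _).trans (le_of_eq ?_)
    have : ((a : ℂ) * z).im = a * z.im := by simp
    rw [this, abs_mul, abs_of_pos ha]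
  have hz1 : |z.re| ≤ ‖z‖ := Complex.abs_re_le_norm z
  -- combine
  have hB : a * |z.re| * (θ ^ (2 * n) * 2 ^ n) * ‖Sp a n z‖ ≤ Real.exp (a * |z.im|) := by
    refine le_trans ?_ (hn ▸ hsin)
    gcongr
  have hB2 := pow_le_pow_left₀ (by positivity) hB 2
  rw [← Real.exp_nat_mul] at hB2
  have e5 : (a * |z.re| * (θ ^ (2 * n) * 2 ^ n) * ‖Sp a n z‖) ^ 2 =
      ((a * z.re) ^ 2 * θ ^ (4 * n) * 4 ^ n) * ‖Sp a n z‖ ^ 2 := by
    have : (4 : ℝ) ^ n = 2 ^ n * 2 ^ n := by rw [← mul_pow]; norm_num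
    rw [this, mul_pow a z.re, ← sq_abs z.re]
    ring
  rw [e5] at hB2
  have hpos : 0 < (a * z.re) ^ 2 * θ ^ (4 * n) * 4 ^ n := by
    have h1 : z.re ≠ 0 := fun h => by rw [h, abs_zero] at hx0; exact lt_irrefl _ hx0
    have : 0 < (a * z.re) ^ 2 := by positivity
    have : 0 < θ := by linarith
    positivity
  rw [le_div_iff₀ hpos, mul_comm]
  refine hB2.trans (le_of_eq ?_)
  congr 1
  push_cast
  ring

end Pool.Agent.Q65.CD
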